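import Pool.Agent.Helper533.Polar.Final

/-!
Comparison principle for bounded `𝒜`-superharmonic and `𝒜`-subharmonic functions with one
neglected boundary point of zero capacity.
-/

open MeasureTheory Filter Topology Set
open Pool.Agent.Helper533.Polar.Stmt

namespace Pool.Agent.Results.MP_fb6cbc_an.NeglectPolarPoint

/-- For every `n ≥ 2`, `1 < p < ∞`, every `p`-admissible weight `w` (`dμ = w dx`), every `𝒜`
satisfying the structure conditions, every bounded open `Ω`, every `x₀ ∈ ∂Ω` of zero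
`(p, μ)`-capacity, and all bounded `u` (`𝒜`-superharmonic) and `v` (`𝒜`-subharmonic) in `Ω` with
`limsup v ≤ liminf u` at all boundary points other than `x₀`, one has `v ≤ u` in `Ω`. -/
theorem result :
    ∀ (n : ℕ), 2 ≤ n → ∀ (p : ℝ), 1 < p → ∀ (w : Sp n → ℝ), IsAdmissible p w →
    ∀ (α β : ℝ) (𝒜 : Sp n → Sp n → Sp n), IsOperator p α β w 𝒜 →
    ∀ (Ω : Set (Sp n)), IsOpen Ω → Bornology.IsBounded Ω →
    ∀ x₀ ∈ frontier Ω, cap p (wm w) {x₀} = 0 →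
    ∀ (u v : Sp n → ℝ), IsSuperharmonic 𝒜 p w Ω u → IsSubharmonic 𝒜 p w Ω v →
      (∃ M : ℝ, ∀ x ∈ Ω, |u x| ≤ M) → (∃ M : ℝ, ∀ x ∈ Ω, |v x| ≤ M) →
      (∀ x ∈ frontier Ω, x ≠ x₀ → limsup v (𝓝[Ω] x) ≤ liminf u (𝓝[Ω] x)) →
      ∀ x ∈ Ω, v x ≤ u x := by
  intro n hn p hp w hw α β 𝒜 hA Ω hΩ hΩb x₀ _ hcap u v hu hv hub hvb hbd
  exact Pool.Agent.Helper533.Polar.final_theorem hn hp hw hA hΩ hΩb hcap hu hv hub hvb hbd

end Pool.Agent.Results.MP_fb6cbc_an.NeglectPolarPoint
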